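import Pool.Agent.H79Pre.Main

/-!
# MP_d050e6_al: the component of the free groups under the limit preorder

Let `A` be a finitely presented solvable group in the component of the non-abelian free groups (the
problem file lists `BS(1,p)`), and let `E` be a nontrivial finite perfect group with trivial centre,
for instance the alternating group `A₅`. Then `A × E` is in the same component, and every chain from
`A` to `A × E` has at least `6` steps.
-/

set_option autoImplicit false

namespace Pool.Agent.Results.MP_d050e6_al.DiamSix

open Pool.Agent.H79Pre

theorem result :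
    (∀ (A E : Type) [Group A] [Group E] [Finite E] [Nontrivial E],
      Subgroup.center E = ⊥ → commutator E = ⊤ →
      Group.IsFinitelyPresented A → Group.IsSolvable A →
        (∀ l < 6, ¬ DistLE l A (A × E)) ∧
        ∀ l, DistLE l A (FreeGroup (Fin 2)) → ∃ l', DistLE l' (A × E) (FreeGroup (Fin 2))) ∧
    (∀ (A : Type) [Group A], Group.IsFinitelyPresented A → Group.IsSolvable A →
      (∃ l, DistLE l A (FreeGroup (Fin 2))) →
        (∃ l, DistLE l (A × alternatingGroup (Fin 5)) (FreeGroup (Fin 2))) ∧
        ∀ l < 6, ¬ DistLE l A (A × alternatingGroup (Fin 5))) := by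
  refine ⟨?_, ?_⟩
  · intro A E _ _ _ _ hE hperf hA hS
    exact ⟨fun l hl => lower hE hperf hA hS l hl, fun l hl => connected hl⟩
  · rintro A _ hA hS ⟨l, hl⟩
    exact ⟨connected hl, fun l hl => lower a5_center a5_perfect hA hS l hl⟩

end Pool.Agent.Results.MP_d050e6_al.DiamSix
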